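import Pool.Agent.Work.MP_db9399_sv.Geo
import Pool.Agent.Work.MP_db9399_sl_helper6.SSE

/-!
# SSE3: the edges between light vertices of different spots with the colours of a small palette (helper79)

Adapted from `sl_helper6.SSE`: bounded load per spot, every new colour at most once at the guards of
every spot.
-/

set_option autoImplicit false

namespace Pool.Agent.Work.MP_db9399_sv.helper79

open Finset Classical
open Pool.Agent.Work.MP_db9399_all (nb)
open Pool.Agent.Work.MP_db9399_dn (IsMat Tot)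
open Pool.Agent.Work.MP_db9399_bg (HPre)
open Pool.Agent.Work.MP_db9399_sl
open Pool.Agent.Work.MP_db9399_sl_helper6 (card_inc mem_nb deg_in)
open Pool.Agent.Work.MP_db9399_sv

universe u

section greedy
variable {V : Type u} [Fintype V] {K : Type} [DecidableEq K]

/-- greedy colouring of the edges of `Q` with a bounded number of uses of every colour at every
spot, and at most one use at the guards of every spot -/
theorem greedyG (Q : SimpleGraph V) (K0 : Finset K) (A : V → Finset K)
    (Ys : Finset (Finset V)) (Gd : Finset V) (m l r g : ℕ) (k0 : Sym2 V → K)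
    (hsp : ∀ v w, Q.Adj v w → InS Ys v)
    (huniq : ∀ Y ∈ Ys, ∀ Y' ∈ Ys, ∀ v, v ∈ Y → v ∈ Y' → Y = Y')
    (hdeg : ∀ v, (nb Q v).card ≤ m)
    (hg : ∀ Y ∈ Ys, ∑ v ∈ Y ∩ Gd, (nb Q v).card ≤ g)
    (hA : ∀ v w, Q.Adj v w → 2 * m + 2 * r + 2 * g < (K0 \ (A v ∪ A w)).card)
    (hY : ∀ Y ∈ Ys, Y.card * m < (r + 1) * l) (S : Finset (Sym2 V)) :
    (∀ e ∈ S, e ∈ Q.edgeSet) → ∃ col : Sym2 V → K,
      (∀ e ∈ S, col e ∈ K0 ∧ ∀ v ∈ e, col e ∉ A v) ∧
      (∀ e ∈ S, ∀ e' ∈ S, e ≠ e' → ∀ v, v ∈ e → v ∈ e' → col e ≠ col e') ∧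
      (∀ Y ∈ Ys, ∀ b, (S.filter (fun e => col e = b ∧ ∃ v ∈ Y, v ∈ e)).card ≤ l) ∧
      ∀ Y ∈ Ys, ∀ b, (S.filter (fun e => col e = b ∧ ∃ v ∈ Y ∩ Gd, v ∈ e)).card ≤ 1 := by
  induction S using Finset.induction_on with
  | empty =>
    intro _
    refine ⟨k0, ?_, ?_, ?_, ?_⟩
    · intro e he; exact absurd he (notMem_empty _)
    · intro e he; exact absurd he (notMem_empty _)
    · intro Y _ b
      rw [filter_empty, card_empty]
      exact Nat.zero_le _
    · intro Y _ b
      rw [filter_empty, card_empty]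
      exact Nat.zero_le _
  | insert e S heS ih =>
    intro hS
    obtain ⟨col, h1, h2, h3, h3g⟩ := ih (fun e' he' => hS e' (mem_insert_of_mem he'))
    have hSQ : ∀ e ∈ S, e ∈ Q.edgeSet := fun e' he' => hS e' (mem_insert_of_mem he')
    have heQ := hS e (mem_insert_self _ _)
    induction e using Sym2.ind with
    | _ v w =>
    have hvw : Q.Adj v w := heQ
    obtain ⟨Yv, hYv, hvY⟩ := hsp v w hvw
    obtain ⟨Yw, hYw, hwY⟩ := hsp w v hvw.symm
    set U : V → Finset K := fun x => (S.filter (fun e => x ∈ e)).image col with hU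
    set Sat : Finset V → Finset K := fun Y => K0.filter (fun b =>
      l ≤ (S.filter (fun e => col e = b ∧ ∃ v ∈ Y, v ∈ e)).card) with hSat
    set Gt : Finset V → Finset K := fun Y => (Y ∩ Gd).biUnion U with hGt
    have hUc : ∀ x, (U x).card ≤ m := by
      intro x
      exact le_trans card_image_le (le_trans (card_inc Q S hSQ x) (hdeg x))
    have hGc : ∀ Y ∈ Ys, (Gt Y).card ≤ g := by
      intro Y hYY
      refine le_trans card_biUnion_le (le_trans (sum_le_sum ?_) (hg Y hYY))
      intro x _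
      exact le_trans card_image_le (card_inc Q S hSQ x)
    have hSatc : ∀ Y ∈ Ys, (Sat Y).card ≤ r := by
      intro Y hYY
      by_contra hcon
      push Not at hcon
      have h4 : (r + 1) * l ≤ ∑ b ∈ Sat Y,
          (S.filter (fun e => col e = b ∧ ∃ v ∈ Y, v ∈ e)).card := by
        calc (r + 1) * l ≤ (Sat Y).card * l := Nat.mul_le_mul_right _ hcon
          _ = ∑ b ∈ Sat Y, l := by rw [sum_const, smul_eq_mul]
          _ ≤ _ := sum_le_sum fun b hb => by
              rw [hSat] at hb
              exact (mem_filter.mp hb).2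
      have h5 : ∑ b ∈ Sat Y, (S.filter (fun e => col e = b ∧ ∃ v ∈ Y, v ∈ e)).card ≤
          (S.filter (fun e => ∃ v ∈ Y, v ∈ e)).card := by
        rw [← card_biUnion]
        · apply card_le_card
          intro e' he'
          rw [mem_biUnion] at he'
          obtain ⟨b, _, hb⟩ := he'
          rw [mem_filter] at hb ⊢
          exact ⟨hb.1, hb.2.2⟩
        · intro b _ b' _ hbb
          rw [Function.onFun, disjoint_left]
          intro e' he1 he2
          rw [mem_filter] at he1 he2
          exact hbb (he1.2.1.symm.trans he2.2.1)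
      have h6 : (S.filter (fun e => ∃ v ∈ Y, v ∈ e)).card ≤ Y.card * m := by
        calc (S.filter (fun e => ∃ v ∈ Y, v ∈ e)).card
            ≤ (Y.biUnion (fun x => S.filter (fun e => x ∈ e))).card := by
              apply card_le_card
              intro e' he'
              rw [mem_filter] at he'
              obtain ⟨x, hx, hxe⟩ := he'.2
              rw [mem_biUnion]
              exact ⟨x, hx, mem_filter.mpr ⟨he'.1, hxe⟩⟩
          _ ≤ ∑ x ∈ Y, (S.filter (fun e => x ∈ e)).card := card_biUnion_le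
          _ ≤ ∑ x ∈ Y, m := sum_le_sum fun x _ => le_trans (card_inc Q S hSQ x) (hdeg x)
          _ = Y.card * m := by rw [sum_const, smul_eq_mul]
      have h7 := hY Y hYY
      omega
    -- a free colour
    have hfree : ∃ b ∈ K0 \ (A v ∪ A w), b ∉ (U v ∪ U w) ∪ (Sat Yv ∪ Sat Yw) ∪
        (Gt Yv ∪ Gt Yw) := by
      by_contra hcon
      push Not at hcon
      have h4 : K0 \ (A v ∪ A w) ⊆ (U v ∪ U w) ∪ (Sat Yv ∪ Sat Yw) ∪ (Gt Yv ∪ Gt Yw) := hcon
      have h5 := card_le_card h4
      have h6 := card_union_le ((U v ∪ U w) ∪ (Sat Yv ∪ Sat Yw)) (Gt Yv ∪ Gt Yw)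
      have h7 := card_union_le (U v ∪ U w) (Sat Yv ∪ Sat Yw)
      have h8 := card_union_le (U v) (U w)
      have h9 := card_union_le (Sat Yv) (Sat Yw)
      have h9' := card_union_le (Gt Yv) (Gt Yw)
      have h10 := hUc v
      have h11 := hUc w
      have h12 := hSatc Yv hYv
      have h13 := hSatc Yw hYw
      have h12' := hGc Yv hYv
      have h13' := hGc Yw hYw
      have h14 := hA v w hvw
      omega
    obtain ⟨b, hbK', hb⟩ := hfree
    rw [mem_sdiff, mem_union] at hbK'
    rw [mem_union, mem_union, mem_union, mem_union, mem_union] at hb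
    push Not at hb hbK'
    obtain ⟨hbK, hbv, hbw⟩ := hbK'
    obtain ⟨⟨⟨hbU, hbU'⟩, hbS, hbS'⟩, hbG, hbG'⟩ := hb
    refine ⟨Function.update col s(v, w) b, ?_, ?_, ?_, ?_⟩
    · intro e' he'
      rw [mem_insert] at he'
      by_cases hee : e' = s(v, w)
      · rw [hee, Function.update_self]
        refine ⟨hbK, ?_⟩
        intro x hx
        rcases Sym2.mem_iff.mp hx with rfl | rfl
        · exact hbv
        · exact hbw
      · rw [Function.update_of_ne hee]
        exact h1 e' (he'.resolve_left hee)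
    · have key : ∀ e' ∈ S, ∀ x, x ∈ s(v, w) → x ∈ e' → b ≠ col e' := by
        intro e' he' x hx hxe hbe
        rcases Sym2.mem_iff.mp hx with rfl | rfl
        · apply hbU
          rw [hU]
          exact mem_image.mpr ⟨e', mem_filter.mpr ⟨he', hxe⟩, hbe.symm⟩
        · apply hbU'
          rw [hU]
          exact mem_image.mpr ⟨e', mem_filter.mpr ⟨he', hxe⟩, hbe.symm⟩
      intro e1 he1 e2 he2 hne x hx1 hx2
      rw [mem_insert] at he1 he2
      by_cases h4 : e1 = s(v, w)
      · by_cases h5 : e2 = s(v, w)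
        · exact absurd (h4.trans h5.symm) hne
        · rw [Function.update_of_ne h5, h4, Function.update_self]
          rw [h4] at hx1
          exact key e2 (he2.resolve_left h5) x hx1 hx2
      · by_cases h5 : e2 = s(v, w)
        · rw [Function.update_of_ne h4, h5, Function.update_self]
          rw [h5] at hx2
          exact (key e1 (he1.resolve_left h4) x hx2 hx1).symm
        · rw [Function.update_of_ne h4, Function.update_of_ne h5]
          exact h2 e1 (he1.resolve_left h4) e2 (he2.resolve_left h5) hne x hx1 hx2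
    · intro Y hYY b'
      have hsub : (insert s(v, w) S).filter (fun e => Function.update col s(v, w) b e = b' ∧
          ∃ x ∈ Y, x ∈ e) ⊆ (S.filter (fun e => col e = b' ∧ ∃ x ∈ Y, x ∈ e)) ∪
            (if b = b' ∧ ∃ x ∈ Y, x ∈ s(v, w) then {s(v, w)} else ∅) := by
        intro e' he'
        rw [mem_filter, mem_insert] at he'
        rw [mem_union, mem_filter]
        by_cases hee : e' = s(v, w)
        · right
          rw [hee, Function.update_self] at he'
          rw [if_pos he'.2, hee]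
          exact mem_singleton_self _
        · left
          rw [Function.update_of_ne hee] at he'
          exact ⟨he'.1.resolve_left hee, he'.2⟩
      refine le_trans (card_le_card hsub) ?_
      by_cases hb' : b = b' ∧ ∃ x ∈ Y, x ∈ s(v, w)
      · rw [if_pos hb']
        obtain ⟨hbb, x, hxY, hx⟩ := hb'
        rw [← hbb]
        refine le_trans (card_union_le _ _) ?_
        rw [card_singleton]
        rcases Sym2.mem_iff.mp hx with rfl | rfl
        · have hYe : Y = Yv := huniq Y hYY Yv hYv x hxY hvY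
          have h4 : ¬ l ≤ (S.filter (fun e => col e = b ∧ ∃ v ∈ Yv, v ∈ e)).card := by
            intro h5
            exact hbS (by rw [hSat]; exact mem_filter.mpr ⟨hbK, h5⟩)
          rw [hYe]
          omega
        · have hYe : Y = Yw := huniq Y hYY Yw hYw x hxY hwY
          have h4 : ¬ l ≤ (S.filter (fun e => col e = b ∧ ∃ v ∈ Yw, v ∈ e)).card := by
            intro h5
            exact hbS' (by rw [hSat]; exact mem_filter.mpr ⟨hbK, h5⟩)
          rw [hYe]
          omega
      · rw [if_neg hb', union_empty]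
        exact h3 Y hYY b'
    · intro Y hYY b'
      have hsub : (insert s(v, w) S).filter (fun e => Function.update col s(v, w) b e = b' ∧
          ∃ x ∈ Y ∩ Gd, x ∈ e) ⊆ (S.filter (fun e => col e = b' ∧ ∃ x ∈ Y ∩ Gd, x ∈ e)) ∪
            (if b = b' ∧ ∃ x ∈ Y ∩ Gd, x ∈ s(v, w) then {s(v, w)} else ∅) := by
        intro e' he'
        rw [mem_filter, mem_insert] at he'
        rw [mem_union, mem_filter]
        by_cases hee : e' = s(v, w)
        · right
          rw [hee, Function.update_self] at he'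
          rw [if_pos he'.2, hee]
          exact mem_singleton_self _
        · left
          rw [Function.update_of_ne hee] at he'
          exact ⟨he'.1.resolve_left hee, he'.2⟩
      refine le_trans (card_le_card hsub) ?_
      by_cases hb' : b = b' ∧ ∃ x ∈ Y ∩ Gd, x ∈ s(v, w)
      · rw [if_pos hb']
        obtain ⟨hbb, x, hxY, hx⟩ := hb'
        rw [← hbb]
        -- no edge of `S` of colour `b` meets the guards of `Y`
        have hno : b ∉ Gt Y := by
          rcases Sym2.mem_iff.mp hx with rfl | rfl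
          · have hYe : Y = Yv := huniq Y hYY Yv hYv x (mem_inter.mp hxY).1 hvY
            rw [hYe]
            exact hbG
          · have hYe : Y = Yw := huniq Y hYY Yw hYw x (mem_inter.mp hxY).1 hwY
            rw [hYe]
            exact hbG'
        have h4 : S.filter (fun e => col e = b ∧ ∃ x ∈ Y ∩ Gd, x ∈ e) = ∅ := by
          rw [eq_empty_iff_forall_notMem]
          intro e' he'
          rw [mem_filter] at he'
          obtain ⟨he1, he2, z, hz, hze⟩ := he'
          apply hno
          rw [hGt]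
          refine mem_biUnion.mpr ⟨z, hz, ?_⟩
          rw [hU]
          exact mem_image.mpr ⟨e', mem_filter.mpr ⟨he1, hze⟩, he2⟩
        rw [h4, empty_union, card_singleton]
      · rw [if_neg hb', union_empty]
        exact h3g Y hYY b'

end greedy

theorem stmt_SSE3 : Stmt_SSE3.{u} := by
  intro δ π ρ s hδ hπ hπ3 hδ1 hρ hs
  obtain ⟨μ, hμ0, hμ1, hμs, hμδ⟩ : ∃ μ : ℝ, 0 < μ ∧ μ ≤ 1 ∧ μ ≤ s ∧ μ ≤ δ :=
    ⟨min s δ, lt_min hs hδ, le_trans (min_le_right _ _) (by linarith), min_le_left _ _,
      min_le_right _ _⟩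
  obtain ⟨n1, hn1⟩ := exists_nat_gt (2 / μ)
  obtain ⟨n2, hn2⟩ := exists_nat_gt (100 / ρ)
  refine ⟨ρ * μ / 100, max n2 n1, by positivity, ?_⟩
  intro V _ G d k Ys UH Lt c0 EH tu c t E K0 C p a Z Pc Kss Gd hd hdeg hY2 hdis hin hH hPc hEPc
    hKss hKC hGd hO
  have hdn2 : n2 ≤ d := le_trans (le_max_left _ _) hd
  have hdn1 : n1 ≤ d := le_trans (le_max_right _ _) hd
  have hμd : 2 ≤ μ * d := by
    have h1 : (2 : ℝ) / μ < d := lt_of_lt_of_le hn1 (by exact_mod_cast hdn1)
    rw [div_lt_iff₀ hμ0] at h1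
    linarith
  have hρd : 100 ≤ ρ * d := by
    have h1 : (100 : ℝ) / ρ < d := lt_of_lt_of_le hn2 (by exact_mod_cast hdn2)
    rw [div_lt_iff₀ hρ] at h1
    linarith
  have hdR : (0 : ℝ) < d := by
    by_contra hcon
    have h1 : (d : ℝ) = 0 := le_antisymm (not_lt.mp hcon) (Nat.cast_nonneg d)
    rw [h1] at hμd
    linarith
  have hθd : ρ * μ / 100 * d ≤ ρ * d / 100 := by
    have h1 : ρ * μ ≤ ρ * 1 := mul_le_mul_of_nonneg_left hμ1 hρ.le
    have h2 : ρ * μ * d ≤ ρ * 1 * d := mul_le_mul_of_nonneg_right h1 hdR.le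
    linarith
  set Q := GsL G EH Ys Lt with hQ
  have hQG : ∀ v w, Q.Adj v w → G.Adj v w := fun v w h => h.1.1
  have hQS : ∀ v w, Q.Adj v w → InS Ys v := fun v w h => h.1.2.1
  have hQL : ∀ v w, Q.Adj v w → v ∈ Lt := fun v w h => h.2.1
  -- degrees in `Q`
  have hdegQ : ∀ v, ((nb Q v).card : ℝ) ≤ ρ * μ / 100 * d := by
    intro v
    by_cases hv : InS Ys v ∧ v ∈ Lt
    · obtain ⟨⟨Y, hY, hvY⟩, hvL⟩ := hv
      have h1 := hin Y hY v hvY hvL
      have h2 : (nb G v ∩ Y).card + (nb Q v).card ≤ (nb G v).card := by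
        rw [← card_union_of_disjoint]
        · apply card_le_card
          intro w hw
          rw [mem_union, mem_inter] at hw
          rcases hw with hw | hw
          · exact hw.1
          · rw [mem_nb] at hw ⊢
            exact hw.1.1
        · rw [disjoint_left]
          intro w hw hw'
          rw [mem_inter] at hw
          rw [mem_nb] at hw'
          exact hw'.1.2.2.2.1 ⟨Y, hY, hvY, hw.2⟩
      have h3 := hdeg v
      have h4 : ((nb G v ∩ Y).card : ℝ) + (nb Q v).card ≤ d := by exact_mod_cast le_trans h2 h3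
      linarith
    · have h1 : nb Q v = ∅ := by
        ext w
        rw [mem_nb]
        constructor
        · intro h
          exact absurd ⟨h.1.2.1, h.2.1⟩ hv
        · intro h
          exact absurd h (notMem_empty _)
      rw [h1, card_empty]
      push_cast
      positivity
  -- the number of colours at a spot vertex
  have hEc : ∀ v, InS Ys v → v ∈ Lt → ((E v).card : ℝ) ≤ ρ * μ / 100 * d + 1 := by
    rintro v ⟨Y, hY, hvY⟩ hvL
    have h1 := hO.Ed v ⟨Y, hY, hvY⟩
    have h2 := deg_in G EH Ys hH.mat Y hY v hvY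
    have h3 := hin Y hY v hvY hvL
    have h4 : ((E v).card : ℝ) + (nb (Gin G EH Ys) v).card + (nb (GsL G EH Ys Lt) v).card = d := by
      exact_mod_cast h1
    have h5 : ((nb G v ∩ Y).card : ℝ) ≤ (nb (Gin G EH Ys) v).card + 1 := by exact_mod_cast h2
    have h6 : (0 : ℝ) ≤ (nb (GsL G EH Ys Lt) v).card := by positivity
    linarith
  set A : V → Finset (Fin k) := fun v => E v ∪ Pc v ∪ C (p v) ∪ {c v, tu v} with hAdef
  set m : ℕ := ⌊ρ * μ / 100 * d⌋₊ with hm
  set l : ℕ := ⌊μ * d⌋₊ with hl
  set r : ℕ := ⌊ρ / 10 * d⌋₊ with hr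
  have hmR : (m : ℝ) ≤ ρ * μ / 100 * d := Nat.floor_le (by positivity)
  have hlR : (l : ℝ) ≤ μ * d := Nat.floor_le (by positivity)
  have hlR' : μ * d < l + 1 := Nat.lt_floor_add_one _
  have hrR : (r : ℝ) ≤ ρ / 10 * d := Nat.floor_le (by positivity)
  have hrR' : ρ / 10 * d < r + 1 := Nat.lt_floor_add_one _
  have hdm : ∀ v, (nb Q v).card ≤ m := fun v => Nat.le_floor (hdegQ v)
  have hgm : ∀ Y ∈ Ys, ∑ v ∈ Y ∩ Gd, (nb Q v).card ≤ m := fun Y hY => Nat.le_floor (hGd Y hY)
  have hAA : ∀ v w, Q.Adj v w → 2 * m + 2 * r + 2 * m < (Kss \ (A v ∪ A w)).card := by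
    intro v w hvw
    have hv := hQS v w hvw
    have hw := hQS w v hvw.symm
    have h1 : Kss \ (C (p v) ∪ C (p w)) ⊆ (Kss \ (A v ∪ A w)) ∪ ((E v ∪ E w) ∪ (Pc v ∪ Pc w) ∪
        ({c v, tu v} ∪ {c w, tu w})) := by
      intro b hb
      simp only [hAdef, mem_union, mem_sdiff] at hb ⊢
      tauto
    have h2 := card_le_card h1
    have h2' := card_union_le (Kss \ (A v ∪ A w)) ((E v ∪ E w) ∪ (Pc v ∪ Pc w) ∪
        ({c v, tu v} ∪ {c w, tu w}))
    have h3 := card_union_le ((E v ∪ E w) ∪ (Pc v ∪ Pc w))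
      ({c v, tu v} ∪ {c w, tu w})
    have h4 := card_union_le (E v ∪ E w) (Pc v ∪ Pc w)
    have h6 := card_union_le (E v) (E w)
    have h7 := card_union_le (Pc v) (Pc w)
    have h8 := card_union_le ({c v, tu v} : Finset (Fin k)) {c w, tu w}
    have h9 : ({c v, tu v} : Finset (Fin k)).card ≤ 2 := card_le_two
    have h10 : ({c w, tu w} : Finset (Fin k)).card ≤ 2 := card_le_two
    have h11 := hPc v
    have h12 := hPc w
    have h13 : (Kss \ (C (p v) ∪ C (p w))).card ≤ (Kss \ (A v ∪ A w)).card + (E v).card +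
        (E w).card + 8 := by
      omega
    have h14 := hKC (p v) (p w)
    have h15 := hEc v hv (hQL v w hvw)
    have h16 := hEc w hw (hQL w v hvw.symm)
    have h17 : ((Kss \ (C (p v) ∪ C (p w))).card : ℝ) ≤ ((Kss \ (A v ∪ A w)).card : ℝ) +
      (E v).card + (E w).card + 8 := by exact_mod_cast h13
    have h19 : ((2 * m + 2 * r + 2 * m : ℕ) : ℝ) < ((Kss \ (A v ∪ A w)).card : ℝ) := by
      push_cast
      linarith
    exact_mod_cast h19
  have hYl : ∀ Y ∈ Ys, Y.card * m < (r + 1) * l := by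
    intro Y hY
    have h1 : (Y.card : ℝ) ≤ 2 * d := by exact_mod_cast hY2 Y hY
    have h2 : μ * d / 2 ≤ l := by linarith
    have h3 : (0 : ℝ) ≤ m := by positivity
    have h5 : (0 : ℝ) < ρ * μ * (d * d) := by positivity
    have h4 : ((Y.card * m : ℕ) : ℝ) < (((r + 1) * l : ℕ) : ℝ) := by
      push_cast
      calc (Y.card : ℝ) * m ≤ (2 * d) * (ρ * μ / 100 * d) := by
            apply mul_le_mul h1 hmR h3 (by positivity)
        _ = ρ * μ * (d * d) / 50 := by ring
        _ < ρ * μ * (d * d) / 20 := by linarith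
        _ = (ρ / 10 * d) * (μ * d / 2) := by ring
        _ ≤ (r + 1) * (μ * d / 2) := by
            apply mul_le_mul_of_nonneg_right hrR'.le
            linarith
        _ ≤ (r + 1) * l := by
            apply mul_le_mul_of_nonneg_left h2
            positivity
    exact_mod_cast h4
  have huniq : ∀ Y ∈ Ys, ∀ Y' ∈ Ys, ∀ v, v ∈ Y → v ∈ Y' → Y = Y' := by
    intro Y hY Y' hY' v hv hv'
    by_contra hne
    exact (disjoint_left.mp (hdis Y hY Y' hY' hne)) hv hv'
  obtain ⟨col, hc1, hc2, hc3, hc4⟩ := greedyG Q Kss A Ys Gd m l r m (Sym2.lift ⟨t, hO.ts⟩) hQS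
    huniq hdm hgm hAA hYl (univ.filter (fun e => e ∈ Q.edgeSet)) (fun e he => (mem_filter.mp he).2)
  have hmem : ∀ v w, Q.Adj v w → s(v, w) ∈ univ.filter (fun e => e ∈ Q.edgeSet) := by
    intro v w h
    exact mem_filter.mpr ⟨mem_univ _, h⟩
  have hKs : ∀ v w, Q.Adj v w → col s(v, w) ∈ Kss := fun v w h => (hc1 _ (hmem v w h)).1
  have hK : ∀ v w, Q.Adj v w → col s(v, w) ∈ K0 := fun v w h => hKss (hKs v w h)
  have hnA : ∀ v w, Q.Adj v w → col s(v, w) ∉ A v := fun v w h =>
    (hc1 _ (hmem v w h)).2 v (Sym2.mem_mk_left v w)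
  have hnE : ∀ v w, Q.Adj v w → col s(v, w) ∉ E v := by
    intro v w h h'
    exact hnA v w h (by simp only [hAdef, mem_union]; tauto)
  have hnP : ∀ v w, Q.Adj v w → col s(v, w) ∉ Pc v := by
    intro v w h h'
    exact hnA v w h (by simp only [hAdef, mem_union]; tauto)
  have hnC : ∀ v w, Q.Adj v w → col s(v, w) ∉ C (p v) := by
    intro v w h h'
    exact hnA v w h (by simp only [hAdef, mem_union]; tauto)
  have hnc : ∀ v w, Q.Adj v w → col s(v, w) ≠ c v := by
    intro v w h h'
    exact hnA v w h (by simp only [hAdef, mem_union, mem_insert]; tauto)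
  have hinj : ∀ v w w', Q.Adj v w → Q.Adj v w' → col s(v, w) = col s(v, w') → w = w' := by
    intro v w w' h h' hcc
    by_contra hne
    have h1 : s(v, w) ≠ s(v, w') := by
      intro h2
      exact hne (Sym2.congr_right.mp h2)
    exact hc2 _ (hmem v w h) _ (hmem v w' h') h1 v (Sym2.mem_mk_left v w) (Sym2.mem_mk_left v w')
      hcc
  set t' : V → V → Fin k := fun v w => if Q.Adj v w then col s(v, w) else t v w with ht'
  set E' : V → Finset (Fin k) := fun v => E v ∪ (nb Q v).image (fun w => col s(v, w)) with hE'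
  have ht'Q : ∀ v w, Q.Adj v w → t' v w = col s(v, w) := fun v w h => if_pos h
  have ht'n : ∀ v w, ¬ Q.Adj v w → t' v w = t v w := fun v w h => if_neg h
  have hEHQ : ∀ v w, EH.Adj v w → ¬ Q.Adj v w := fun v w h h' => h'.1.2.2.2.2 h
  have hoQ : ∀ v w, (GxL G EH Ys Lt).Adj v w → ¬ Q.Adj v w := fun v w h h' => h.2 h'
  have hex : ∀ v w, ¬ Q.Adj v w → (Gex G Ys).Adj v w ∨ EH.Adj v w →
      (GxL G EH Ys Lt).Adj v w ∨ EH.Adj v w := by
    intro v w hQ' h
    rcases h with h | h
    · exact Or.inl ⟨h, hQ'⟩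
    · exact Or.inr h
  have hmE' : ∀ v w, Q.Adj v w → col s(v, w) ∈ E' v := by
    intro v w h
    exact mem_union_right _ (mem_image.mpr ⟨w, (mem_nb _ _ _).mpr h, rfl⟩)
  have hE'c : ∀ v b, b ∈ E' v → b ∈ E v ∨ ∃ w, Q.Adj v w ∧ col s(v, w) = b := by
    intro v b hb
    rcases mem_union.mp hb with h | h
    · exact Or.inl h
    · right
      obtain ⟨w, hw, hwb⟩ := mem_image.mp h
      exact ⟨w, (mem_nb _ _ _).mp hw, hwb⟩
  -- the new colours at a set `T` of spot vertices in one spot
  have hnew : ∀ Y ∈ Ys, ∀ T : Finset V, T ⊆ Y → ∀ b,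
      (T.filter (fun v => ∃ w, Q.Adj v w ∧ col s(v, w) = b)).card ≤
        ((univ.filter (fun e => e ∈ Q.edgeSet)).filter
          (fun e => col e = b ∧ ∃ v ∈ T, v ∈ e)).card := by
    intro Y hY T hT b
    have h4 : ∀ v, ∃ w, v ∈ T.filter (fun v => ∃ w, Q.Adj v w ∧ col s(v, w) = b) →
        Q.Adj v w ∧ col s(v, w) = b := by
      intro v
      by_cases hv : v ∈ T.filter (fun v => ∃ w, Q.Adj v w ∧ col s(v, w) = b)
      · obtain ⟨w, hw⟩ := (mem_filter.mp hv).2
        exact ⟨w, fun _ => hw⟩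
      · exact ⟨v, fun h => absurd h hv⟩
    choose f hf using h4
    apply card_le_card_of_injOn (fun v => s(v, f v))
    · intro v hv
      have hv' := mem_coe.mp hv
      obtain ⟨h5, h6⟩ := hf v hv'
      rw [mem_coe, mem_filter]
      exact ⟨hmem v _ h5, h6, v, (mem_filter.mp hv').1, Sym2.mem_mk_left v _⟩
    · intro v hv v' hv' h5
      have hv1 := mem_coe.mp hv
      have hv2 := mem_coe.mp hv'
      have h6 : s(v, f v) = s(v', f v') := h5
      rcases Sym2.eq_iff.mp h6 with h7 | h7
      · exact h7.1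
      · exfalso
        have h8 := (hf v hv1).1
        rw [h7.2] at h8
        exact h8.1.2.2.2.1 ⟨Y, hY, hT (mem_filter.mp hv1).1, hT (mem_filter.mp hv2).1⟩
  have hnew2 : ∀ T : Finset V, ∀ b, T.filter (fun v => b ∈ E' v ∧ b ∉ E v) ⊆
      T.filter (fun v => ∃ w, Q.Adj v w ∧ col s(v, w) = b) := by
    intro T b v hv
    rw [mem_filter] at hv ⊢
    rcases hE'c v b hv.2.1 with h | h
    · exact absurd h hv.2.2
    · exact ⟨hv.1, h⟩
  refine ⟨t', E', ?_, ?_, ?_, ?_, ?_, ?_, ?_, ?_, ?_⟩
  · intro v w h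
    exact ht'n v w (hoQ v w h)
  · intro v w h
    rw [ht'Q v w h]
    exact hKs v w h
  · intro v
    exact subset_union_left
  · intro v hv
    apply Subset.antisymm
    · intro b hb
      rcases hE'c v b hb with h | ⟨w, hw, _⟩
      · exact h
      · exact absurd (hQL v w hw) hv
    · exact subset_union_left
  · intro v b hb
    rcases hE'c v b hb with h | ⟨w, hw, rfl⟩
    · exact mem_union_left _ h
    · exact mem_union_right _ (hKs v w hw)
  · intro v hv
    rw [disjoint_left]
    intro b hb hb'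
    rcases hE'c v b hb with h | ⟨w, hw, rfl⟩
    · exact (disjoint_left.mp (hEPc v hv)) h hb'
    · exact hnP v w hw hb'
  · intro Y hY b
    have h1 := card_le_card (hnew2 Y b)
    have h2 := hnew Y hY Y (Subset.refl _) b
    have h3 : ((Y.filter (fun v => b ∈ E' v ∧ b ∉ E v)).card : ℝ) ≤ l := by
      exact_mod_cast le_trans h1 (le_trans h2 (hc3 Y hY b))
    have h4 : μ * d ≤ s * d := mul_le_mul_of_nonneg_right hμs hdR.le
    linarith
  · intro Y hY b
    exact le_trans (card_le_card (hnew2 (Y ∩ Gd) b))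
      (le_trans (hnew Y hY (Y ∩ Gd) inter_subset_left b) (hc4 Y hY b))
  refine
    { K0c := hO.K0c
      cU := hO.cU
      cK := hO.cK
      cc := hO.cc
      ts := ?_
      te := ?_
      tK := ?_
      tc := ?_
      ti := ?_
      Et := ?_
      EK := ?_
      EU := ?_
      Ed := ?_
      CK := hO.CK
      Cc := hO.Cc
      Cd := hO.Cd
      UZ := hO.UZ
      ZY := ?_
      av := ?_
      cell := ?_
      ld := ?_ }
  · intro v w
    by_cases h : Q.Adj v w
    · rw [ht'Q v w h, ht'Q w v h.symm, Sym2.eq_swap]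
    · rw [ht'n v w h, ht'n w v (fun h' => h h'.symm), hO.ts v w]
  · intro v w h
    rw [ht'n v w (hEHQ v w h)]
    exact hO.te v w h
  · intro v w h hE
    by_cases hq : Q.Adj v w
    · rw [ht'Q v w hq]
      exact hK v w hq
    · rw [ht'n v w hq]
      exact hO.tK v w ((hex v w hq (Or.inl h)).resolve_right hE) hE
  · intro v w h hv
    by_cases hq : Q.Adj v w
    · rw [ht'Q v w hq]
      exact hnc v w hq
    · rw [ht'n v w hq]
      by_cases ho : (GxL G EH Ys Lt).Adj v w
      · exact hO.tc v w ho hv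
      · have hE := (hex v w hq (Or.inl h)).resolve_left ho
        have hvU : v ∈ UH := hH.EU v w hE
        rw [hO.te v w hE, hO.cU v hvU]
        exact hH.ct v hvU
  · intro v w hw w' hw' h
    by_cases hq : Q.Adj v w
    · by_cases hq' : Q.Adj v w'
      · rw [ht'Q v w hq, ht'Q v w' hq'] at h
        exact hinj v w w' hq hq' h
      · exfalso
        rw [ht'Q v w hq, ht'n v w' hq'] at h
        apply hnE v w hq
        rw [h]
        exact hO.Et v w' (hQS v w hq) (hex v w' hq' hw')
    · by_cases hq' : Q.Adj v w'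
      · exfalso
        rw [ht'n v w hq, ht'Q v w' hq'] at h
        apply hnE v w' hq'
        rw [← h]
        exact hO.Et v w (hQS v w' hq') (hex v w hq hw)
      · rw [ht'n v w hq, ht'n v w' hq'] at h
        exact hO.ti v (hex v w hq hw) (hex v w' hq' hw') h
  · intro v w hv h
    by_cases hq : Q.Adj v w
    · rw [ht'Q v w hq]
      exact hmE' v w hq
    · rw [ht'n v w hq]
      exact mem_union_left _ (hO.Et v w hv (hex v w hq h))
  · intro v hv hvU b hb
    rcases hE'c v b hb with h | ⟨w, hw, rfl⟩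
    · exact hO.EK v hv hvU h
    · exact hK v w hw
  · intro v hvU hv
    obtain ⟨h1, h2⟩ := hO.EU v hvU hv
    constructor
    · intro b hb
      rcases hE'c v b hb with h | ⟨w, hw, rfl⟩
      · exact h1 h
      · exact mem_insert_of_mem (hK v w hw)
    · intro hb
      rcases hE'c v _ hb with h | ⟨w, hw, hwb⟩
      · exact h2 h
      · exact hnc v w hw (by rw [hwb, hO.cU v hvU])
  · intro v hv
    have h1 := hO.Ed v hv
    have h2 : (E' v).card = (E v).card + (nb Q v).card := by
      rw [hE']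
      simp only
      rw [card_union_of_disjoint, card_image_of_injOn]
      · intro w hw w' hw' h
        exact hinj v w w' ((mem_nb _ _ _).mp hw) ((mem_nb _ _ _).mp hw') h
      · rw [disjoint_left]
        intro b hb hb'
        obtain ⟨w, hw, rfl⟩ := mem_image.mp hb'
        exact hnE v w ((mem_nb _ _ _).mp hw) hb
    have h3 : (nb (⊥ : SimpleGraph V) v).card = 0 := by
      rw [card_eq_zero]
      ext w
      rw [mem_nb]
      simp
    rw [h2, h3]
    omega
  · intro Y hY
    have h1 := hO.ZY Y hY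
    have h2 : δ * d ≤ 2 * δ * d := by nlinarith
    exact le_trans h1 h2
  · intro v hv hvZ
    rw [disjoint_left]
    intro b hb hb'
    rcases hE'c v b hb with h | ⟨w, hw, rfl⟩
    · exact (disjoint_left.mp (hO.av v hv hvZ)) h hb'
    · exact hnC v w hw hb'
  · intro Y hY i j
    have h1 := hO.cell Y hY i j
    have h2 : δ * d ≤ 2 * δ * d := by nlinarith
    exact le_trans h1 h2
  · intro Y hY b
    have h1 := hO.ld Y hY b
    have h2 : (Y.filter (fun v => v ∉ Z ∧ b ∈ E' v)).card ≤
        (Y.filter (fun v => v ∉ Z ∧ b ∈ E v)).card + l := by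
      have h3 : Y.filter (fun v => v ∉ Z ∧ b ∈ E' v) ⊆ Y.filter (fun v => v ∉ Z ∧ b ∈ E v) ∪
          Y.filter (fun v => ∃ w, Q.Adj v w ∧ col s(v, w) = b) := by
        intro v hv
        rw [mem_filter] at hv
        rw [mem_union, mem_filter, mem_filter]
        rcases hE'c v b hv.2.2 with h | h
        · exact Or.inl ⟨hv.1, hv.2.1, h⟩
        · exact Or.inr ⟨hv.1, h⟩
      refine le_trans (card_le_card h3) (le_trans (card_union_le _ _) ?_)
      exact Nat.add_le_add_left (le_trans (hnew Y hY Y (Subset.refl _) b) (hc3 Y hY b)) _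
    have h3 : ((Y.filter (fun v => v ∉ Z ∧ b ∈ E' v)).card : ℝ) ≤
        ((Y.filter (fun v => v ∉ Z ∧ b ∈ E v)).card : ℝ) + l := by exact_mod_cast h2
    have h5 : μ * d ≤ δ * d := mul_le_mul_of_nonneg_right hμδ hdR.le
    linarith

end Pool.Agent.Work.MP_db9399_sv.helper79
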